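import Mathlib
import Pool.Agent.N604.MW.Stm

/-! Project MW (helper604), task CIRC (helper624): the circle method, abstract form. -/

set_option autoImplicit false

open Finset MeasureTheory

namespace Pool.Agent.N624.MWCirc

open Pool.Agent.N604.MW

/-! ### The character -/

lemma e_add (x y : ℝ) : e (x + y) = e x * e y := by
  unfold e
  rw [← Complex.exp_add]
  congr 1
  push_cast
  ring

lemma e_zero : e 0 = 1 := by
  unfold e
  simp

lemma norm_e (x : ℝ) : ‖e x‖ = 1 := by
  unfold e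
  have : (2 * Real.pi * x * Complex.I : ℂ) = ((2 * Real.pi * x : ℝ) : ℂ) * Complex.I := by
    push_cast; ring
  rw [this, Complex.norm_exp_ofReal_mul_I]

lemma conj_e (x : ℝ) : (starRingEnd ℂ) (e x) = e (-x) := by
  unfold e
  rw [← Complex.exp_conj]
  congr 1
  simp only [map_mul, Complex.conj_I, Complex.conj_ofReal, map_ofNat]
  push_cast
  ring

lemma cont_e : Continuous e := by
  unfold e
  fun_prop

lemma one_sub_e (x : ℝ) : ‖1 - e x‖ ≤ 2 * Real.pi * |x| := by
  unfold e
  have : (2 * Real.pi * x * Complex.I : ℂ) = Complex.I * ((2 * Real.pi * x : ℝ) : ℂ) := by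
    push_cast; ring
  rw [this, norm_sub_rev]
  refine (Real.norm_exp_I_mul_ofReal_sub_one_le).trans ?_
  rw [Real.norm_eq_abs, abs_mul, abs_of_pos (by positivity : (0 : ℝ) < 2 * Real.pi)]

/-- the circle -/
noncomputable def mu : Measure ℝ := volume.restrict (Set.Ioc (-(1 / 2) : ℝ) (1 / 2))

instance : IsFiniteMeasure mu := by
  unfold mu
  infer_instance

lemma integ {f : ℝ → ℂ} (hf : Continuous f) : Integrable f mu :=
  hf.integrableOn_Ioc

lemma integR {f : ℝ → ℝ} (hf : Continuous f) : Integrable f mu :=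
  hf.integrableOn_Ioc

lemma orth (n : ℤ) : ∫ α, e (α * n) ∂mu = if n = 0 then 1 else 0 := by
  unfold mu
  rw [← intervalIntegral.integral_of_le (by norm_num)]
  split_ifs with h
  · subst h
    simp only [Int.cast_zero, mul_zero, e_zero]
    rw [intervalIntegral.integral_const]
    norm_num
  · have h1 : (2 * Real.pi * n * Complex.I : ℂ) ≠ 0 := by
      have : (n : ℂ) ≠ 0 := by exact_mod_cast h
      have := Complex.I_ne_zero
      have : (Real.pi : ℂ) ≠ 0 := by exact_mod_cast Real.pi_ne_zero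
      simp_all
    have h2 : ∀ α : ℝ, e (α * n) = Complex.exp ((2 * Real.pi * n * Complex.I) * α) := by
      intro α
      unfold e
      congr 1
      push_cast
      ring
    simp only [h2]
    rw [integral_exp_mul_complex h1]
    have h3 : Complex.exp ((2 * Real.pi * n * Complex.I) * ((1 / 2 : ℝ) : ℂ)) =
        Complex.exp ((2 * Real.pi * n * Complex.I) * ((-(1 / 2) : ℝ) : ℂ)) := by
      have : ((2 * Real.pi * n * Complex.I) * ((1 / 2 : ℝ) : ℂ) : ℂ) =
          (2 * Real.pi * n * Complex.I) * ((-(1 / 2) : ℝ) : ℂ) + n * (2 * Real.pi * Complex.I) := by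
        push_cast
        ring
      rw [this]
      exact Complex.exp_periodic.int_mul n _
    rw [h3, sub_self, zero_div]

/-! ### Trigonometric polynomials -/

lemma cont_trig {ι : Type*} (s : Finset ι) (c : ι → ℂ) (ν : ι → ℤ) :
    Continuous fun α : ℝ => ∑ i ∈ s, c i * e (α * ν i) := by
  refine continuous_finsetSum _ fun i _ => continuous_const.mul (cont_e.comp (by fun_prop))

lemma cont_eN (N : ℤ) : Continuous fun α : ℝ => e (-(α * N)) := cont_e.comp (by fun_prop)

lemma coef {ι : Type*} (s : Finset ι) (c : ι → ℂ) (ν : ι → ℤ) (N : ℤ) :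
    ∫ α, (∑ i ∈ s, c i * e (α * ν i)) * e (-(α * N)) ∂mu = ∑ i ∈ s, if ν i = N then c i else 0 := by
  have h : ∀ α : ℝ, (∑ i ∈ s, c i * e (α * ν i)) * e (-(α * N)) =
      ∑ i ∈ s, c i * e (α * ((ν i - N : ℤ) : ℝ)) := by
    intro α
    rw [Finset.sum_mul]
    refine Finset.sum_congr rfl fun i _ => ?_
    rw [mul_assoc, ← e_add]
    congr 2
    push_cast
    ring
  simp only [h]
  rw [integral_finsetSum]
  · refine Finset.sum_congr rfl fun i _ => ?_
    rw [integral_const_mul, orth]
    by_cases hi : ν i = N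
    · simp [hi]
    · have : ν i - N ≠ 0 := sub_ne_zero.mpr hi
      simp [hi, this]
  · intro i _
    exact integ (continuous_const.mul (cont_e.comp (by fun_prop)))

lemma l2 {ι : Type*} (s : Finset ι) (c : ι → ℂ) (ν : ι → ℤ) :
    ((∫ α, ‖∑ i ∈ s, c i * e (α * ν i)‖ ^ 2 ∂mu : ℝ) : ℂ) =
      ∑ i ∈ s, ∑ j ∈ s, if ν i = ν j then c i * (starRingEnd ℂ) (c j) else 0 := by
  rw [← integral_complex_ofReal]
  have h : ∀ α : ℝ, ((‖∑ i ∈ s, c i * e (α * ν i)‖ ^ 2 : ℝ) : ℂ) =
      ∑ j ∈ s, (starRingEnd ℂ) (c j) * ((∑ i ∈ s, c i * e (α * ν i)) * e (-(α * ν j))) := by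
    intro α
    push_cast
    rw [← Complex.mul_conj', map_sum, Finset.mul_sum]
    refine Finset.sum_congr rfl fun j _ => ?_
    rw [map_mul, conj_e]
    ring
  simp only [h]
  rw [integral_finsetSum]
  · simp only [integral_const_mul, coef]
    simp only [Finset.mul_sum]
    rw [Finset.sum_comm]
    refine Finset.sum_congr rfl fun i _ => Finset.sum_congr rfl fun j _ => ?_
    split_ifs
    · ring
    · ring
  · intro j _
    exact integ (continuous_const.mul ((cont_trig s c ν).mul (cont_eN _)))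

/-- the kernel `1 - D` -/
noncomputable def Dl (W : ℕ) (α : ℝ) : ℂ := 1 - (∑ h ∈ range W, e (-(α * h))) / W

lemma cont_Dl (W : ℕ) : Continuous (Dl W) := by
  unfold Dl
  refine continuous_const.sub (Continuous.div_const ?_ _)
  exact continuous_finsetSum _ fun i _ => cont_e.comp (by fun_prop)

lemma Dl_two {W : ℕ} (hW : 1 ≤ W) (α : ℝ) : ‖Dl W α‖ ≤ 2 := by
  unfold Dl
  have hW0 : (0 : ℝ) < W := by exact_mod_cast hW
  refine (norm_sub_le _ _).trans ?_
  rw [norm_one, norm_div, Complex.norm_natCast]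
  have : ‖∑ h ∈ range W, e (-(α * h))‖ ≤ W := by
    refine (norm_sum_le _ _).trans ?_
    simp [norm_e]
  have : ‖∑ h ∈ range W, e (-(α * h))‖ / W ≤ 1 := by
    rw [div_le_one hW0]
    exact this
  linarith

lemma Dl_small {W : ℕ} (hW : 1 ≤ W) (α : ℝ) : ‖Dl W α‖ ≤ 2 * Real.pi * |α| * W := by
  have hW0 : (0 : ℝ) < W := by exact_mod_cast hW
  have hWc : (W : ℂ) ≠ 0 := by
    have : W ≠ 0 := by omega
    exact_mod_cast this
  have h1 : Dl W α = (∑ h ∈ range W, (1 - e (-(α * h)))) / W := by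
    unfold Dl
    rw [Finset.sum_sub_distrib]
    simp only [Finset.sum_const, Finset.card_range, nsmul_eq_mul, mul_one]
    rw [sub_div, div_self hWc]
  rw [h1, norm_div, Complex.norm_natCast, div_le_iff₀ hW0]
  refine (norm_sum_le _ _).trans ?_
  have h2 : ∀ h ∈ range W, ‖1 - e (-(α * h))‖ ≤ 2 * Real.pi * |α| * W := by
    intro h hh
    refine (one_sub_e _).trans ?_
    rw [abs_neg, abs_mul, Nat.abs_cast, ← mul_assoc]
    have : (h : ℝ) ≤ W := by
      exact_mod_cast (Finset.mem_range.mp hh).le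
    gcongr
  refine (Finset.sum_le_sum h2).trans ?_
  rw [Finset.sum_const, Finset.card_range, nsmul_eq_mul]
  apply le_of_eq
  ring

/-- the deviation from the mean over a window, for any trigonometric polynomial -/
lemma dev {F : ℝ → ℂ} (hF : Continuous F) (R : ℤ → ℝ)
    (hR : ∀ N : ℤ, ∫ α, F α * e (-(α * N)) ∂mu = (R N : ℂ)) {W : ℕ} (hW : 1 ≤ W) (N : ℤ) :
    ((R N - (∑ h ∈ range W, R (N + h)) / W : ℝ) : ℂ) = ∫ α, F α * Dl W α * e (-(α * N)) ∂mu := by
  have hWc : (W : ℂ) ≠ 0 := by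
    have : W ≠ 0 := by omega
    exact_mod_cast this
  have h1 : ∀ α : ℝ, F α * Dl W α * e (-(α * N)) =
      F α * e (-(α * N)) - (∑ h ∈ range W, F α * e (-(α * ((N + h : ℤ) : ℝ)))) * (W : ℂ)⁻¹ := by
    intro α
    have : ∀ h ∈ range W, F α * e (-(α * ((N + h : ℤ) : ℝ))) =
        (F α * e (-(α * N))) * e (-(α * h)) := by
      intro h _
      rw [mul_assoc, ← e_add]
      congr 2
      push_cast
      ring
    rw [Finset.sum_congr rfl this, ← Finset.mul_sum]
    unfold Dl
    ring
  simp only [h1]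
  rw [integral_sub, integral_mul_const, integral_finsetSum]
  · simp only [hR]
    push_cast
    ring
  · intro h _
    exact integ (hF.mul (cont_eN _))
  · exact integ (hF.mul (cont_eN _))
  · exact (integ (continuous_finsetSum _ fun h _ => hF.mul (cont_eN _))).mul_const _

/-! ### The sums `U` and `T` -/

variable {Ω Λ : Type}

noncomputable def U (P : Finset Ω) (v : Ω → ℤ) (p : Ω → ℝ) (α : ℝ) : ℂ := ∑ ω ∈ P, (p ω : ℂ) * e (α * v ω)

lemma cont_U (P : Finset Ω) (v : Ω → ℤ) (p : Ω → ℝ) : Continuous (U P v p) :=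
  cont_trig P (fun ω => (p ω : ℂ)) v

lemma norm_U (P : Finset Ω) (v : Ω → ℤ) (p : Ω → ℝ) (hp : ∀ ω, 0 ≤ p ω) (α : ℝ) :
    ‖U P v p α‖ ≤ ∑ ω ∈ P, p ω := by
  unfold U
  refine (norm_sum_le _ _).trans ?_
  refine Finset.sum_le_sum fun ω _ => ?_
  rw [norm_mul, norm_e, mul_one, Complex.norm_real, Real.norm_eq_abs, abs_of_nonneg (hp ω)]

lemma U_sq (P : Finset Ω) (v : Ω → ℤ) (p : Ω → ℝ) : ∫ α, ‖U P v p α‖ ^ 2 ∂mu = En P v p := by
  have h := l2 P (fun ω => (p ω : ℂ)) v
  have h2 : (∑ i ∈ P, ∑ j ∈ P, if v i = v j then (p i : ℂ) * (starRingEnd ℂ) (p j : ℂ) else 0) =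
      ((En P v p : ℝ) : ℂ) := by
    unfold En
    push_cast
    refine Finset.sum_congr rfl fun i _ => Finset.sum_congr rfl fun j _ => ?_
    rw [Complex.conj_ofReal]
    split_ifs <;> simp
  rw [h2] at h
  exact_mod_cast h

lemma r1 (P : Finset Ω) (L : Finset Λ) (v : Ω → ℤ) (p : Ω → ℝ) (a : Λ → ℤ) (w : Λ → ℝ) (N : ℤ) :
    ∫ α, (U P v p α * U L a w α) * e (-(α * N)) ∂mu = (R1 P L v p a w N : ℂ) := by
  have h : ∀ α, U P v p α * U L a w α =
      ∑ x ∈ P ×ˢ L, ((p x.1 * w x.2 : ℝ) : ℂ) * e (α * ((v x.1 + a x.2 : ℤ) : ℝ)) := by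
    intro α
    unfold U
    rw [Finset.sum_mul_sum, Finset.sum_product]
    refine Finset.sum_congr rfl fun i _ => Finset.sum_congr rfl fun j _ => ?_
    push_cast
    rw [mul_add, e_add]
    ring
  simp only [h]
  have := coef (P ×ˢ L) (fun x => ((p x.1 * w x.2 : ℝ) : ℂ)) (fun x => v x.1 + a x.2) N
  rw [this, Finset.sum_product]
  unfold R1
  push_cast
  refine Finset.sum_congr rfl fun i _ => Finset.sum_congr rfl fun j _ => ?_
  split_ifs <;> simp

lemma r2 (P : Finset Ω) (L : Finset Λ) (v : Ω → ℤ) (p : Ω → ℝ) (a : Λ → ℤ) (w : Λ → ℝ) (N : ℤ) :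
    ∫ α, (U P v p α * U P v p α * U L a w α) * e (-(α * N)) ∂mu = (R2 P L v p a w N : ℂ) := by
  have h : ∀ α, U P v p α * U P v p α * U L a w α =
      ∑ x ∈ P ×ˢ (P ×ˢ L), ((p x.1 * p x.2.1 * w x.2.2 : ℝ) : ℂ) *
        e (α * ((v x.1 + v x.2.1 + a x.2.2 : ℤ) : ℝ)) := by
    intro α
    rw [mul_assoc]
    unfold U
    rw [Finset.sum_mul_sum P L, Finset.sum_mul_sum]
    rw [Finset.sum_product]
    refine Finset.sum_congr rfl fun i _ => ?_
    rw [Finset.sum_product]
    refine Finset.sum_congr rfl fun j _ => ?_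
    rw [Finset.mul_sum]
    refine Finset.sum_congr rfl fun l _ => ?_
    push_cast
    rw [mul_add, mul_add, e_add, e_add]
    ring
  simp only [h]
  have := coef (P ×ˢ (P ×ˢ L)) (fun x => ((p x.1 * p x.2.1 * w x.2.2 : ℝ) : ℂ))
    (fun x => v x.1 + v x.2.1 + a x.2.2) N
  rw [this, Finset.sum_product]
  unfold R2
  push_cast
  refine Finset.sum_congr rfl fun i _ => ?_
  rw [Finset.sum_product]
  refine Finset.sum_congr rfl fun j _ => Finset.sum_congr rfl fun l _ => ?_
  dsimp only
  split_ifs <;> simp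

lemma mem_half : ∀ᵐ α ∂mu, |α| ≤ 1 / 2 := by
  unfold mu
  filter_upwards [ae_restrict_mem measurableSet_Ioc] with α hα
  rw [abs_le]
  exact ⟨hα.1.le, hα.2⟩

lemma small_int {η K : ℝ} (hη : 0 ≤ η) (hK : 0 ≤ K) :
    ∫ α, (Set.Icc (-η) η).indicator (fun _ => K) α ∂mu ≤ 2 * η * K := by
  rw [integral_indicator measurableSet_Icc, integral_const, smul_eq_mul]
  refine mul_le_mul_of_nonneg_right ?_ hK
  unfold mu
  rw [Measure.real, Measure.restrict_apply_univ]
  refine (ENNReal.toReal_mono (b := volume (Set.Icc (-η) η)) ?_ ?_).trans ?_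
  · simp
  · exact Measure.restrict_apply_le _ _
  · rw [Real.volume_Icc, ENNReal.toReal_ofReal (by linarith)]
    linarith

/-! ### `circ2` -/

theorem circ2 : S_CIRC2 := by
  intro Ω Λ P L v p a w W η τ hp hw hW hη hτ hT N
  set A : ℝ := ∑ ω ∈ P, p ω with hA
  set B : ℝ := ∑ l ∈ L, w l with hB
  have hA0 : 0 ≤ A := Finset.sum_nonneg fun ω _ => hp ω
  have hB0 : 0 ≤ B := Finset.sum_nonneg fun l _ => hw l
  have hW0 : (0 : ℝ) < W := by exact_mod_cast hW
  set K : ℝ := A * A * B * (2 * Real.pi * η * W) with hK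
  have hpi := Real.pi_pos
  have hK0 : 0 ≤ K := by positivity
  have hcF : Continuous fun α => U P v p α * U P v p α * U L a w α :=
    ((cont_U P v p).mul (cont_U P v p)).mul (cont_U L a w)
  have h1 := dev hcF (R2 P L v p a w) (r2 P L v p a w) hW N
  have h2 : ‖∫ α, U P v p α * U P v p α * U L a w α * Dl W α * e (-(α * N)) ∂mu‖ ≤
      ∫ α, ((Set.Icc (-η) η).indicator (fun _ => K) α + 2 * τ * ‖U P v p α‖ ^ 2) ∂mu := by
    refine norm_integral_le_of_norm_le ?_ ?_
    · refine Integrable.add ?_ ?_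
      · exact (integrable_const K).indicator measurableSet_Icc
      · exact integR (continuous_const.mul ((cont_U P v p).norm.pow 2))
    · filter_upwards [mem_half] with α hα
      rw [norm_mul, norm_mul, norm_mul, norm_mul, norm_e, mul_one]
      have hU := norm_U P v p hp α
      have hV := norm_U L a w hw α
      have hU0 := norm_nonneg (U P v p α)
      have hV0 := norm_nonneg (U L a w α)
      have hD0 := norm_nonneg (Dl W α)
      by_cases hs : |α| ≤ η
      · have hm : α ∈ Set.Icc (-η) η := abs_le.mp hs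
        rw [Set.indicator_of_mem hm]
        have hD := Dl_small hW α
        have h3 : ‖Dl W α‖ ≤ 2 * Real.pi * η * W := by
          refine hD.trans ?_
          gcongr
        have h4 : ‖U P v p α‖ * ‖U P v p α‖ * ‖U L a w α‖ * ‖Dl W α‖ ≤ K := by
          rw [hK]
          gcongr
        have h5 : 0 ≤ 2 * τ * ‖U P v p α‖ ^ 2 := by positivity
        linarith
      · have hm : α ∉ Set.Icc (-η) η := fun h => hs (abs_le.mpr h)
        rw [Set.indicator_of_notMem hm, zero_add]
        push Not at hs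
        have hD := Dl_two hW α
        have hT' : ‖U L a w α‖ ≤ τ := hT α hs.le hα
        calc ‖U P v p α‖ * ‖U P v p α‖ * ‖U L a w α‖ * ‖Dl W α‖
            ≤ ‖U P v p α‖ * ‖U P v p α‖ * τ * 2 := by gcongr
          _ = 2 * τ * ‖U P v p α‖ ^ 2 := by ring
  rw [← h1, Complex.norm_real, Real.norm_eq_abs] at h2
  refine h2.trans ?_
  rw [integral_add, integral_const_mul, U_sq]
  · have h6 := small_int hη hK0
    have h7 : 2 * η * K ≤ 16 * W * η ^ 2 * A ^ 2 * B := by
      rw [hK]
      have : 2 * η * (A * A * B * (2 * Real.pi * η * W)) = Real.pi * (4 * W * η ^ 2 * A ^ 2 * B) := by ring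
      rw [this]
      have h8 : Real.pi ≤ 4 := Real.pi_le_four
      have h9 : 0 ≤ 4 * W * η ^ 2 * A ^ 2 * B := by positivity
      nlinarith
    linarith
  · exact (integrable_const K).indicator measurableSet_Icc
  · exact integR (continuous_const.mul ((cont_U P v p).norm.pow 2))

/-! ### `circ1` -/

theorem circ1 : S_CIRC1 := by
  intro Ω Λ P L v p a w W η τ ρ hp hw hW hη hτ hρ hT S hS
  set A : ℝ := ∑ ω ∈ P, p ω with hA
  set B : ℝ := ∑ l ∈ L, w l with hB
  have hA0 : 0 ≤ A := Finset.sum_nonneg fun ω _ => hp ω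
  have hB0 : 0 ≤ B := Finset.sum_nonneg fun l _ => hw l
  have hW0 : (0 : ℝ) < W := by exact_mod_cast hW
  set K : ℝ := A * B * (2 * Real.pi * η * W) with hK
  have hpi := Real.pi_pos
  have hK0 : 0 ≤ K := by positivity
  have hcF : Continuous fun α => U P v p α * U L a w α := (cont_U P v p).mul (cont_U L a w)
  set G : ℝ → ℂ := fun α => U P v p α * U L a w α * Dl W α with hG
  have hcG : Continuous G := hcF.mul (cont_Dl W)
  set G1 : ℝ → ℂ := (Set.Icc (-η) η).indicator G with hG1
  set G2 : ℝ → ℂ := ((Set.Icc (-η) η)ᶜ).indicator G with hG2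
  have hiG1 : Integrable G1 mu := (integ hcG).indicator measurableSet_Icc
  have hiG2 : Integrable G2 mu := (integ hcG).indicator measurableSet_Icc.compl
  have hmul : ∀ {H : ℝ → ℂ}, Integrable H mu → ∀ {Q : ℝ → ℂ}, Continuous Q → ∀ {C : ℝ}, (∀ α, ‖Q α‖ ≤ C) →
      Integrable (fun α => H α * Q α) mu := by
    intro H hH Q hQ C hC
    exact hH.mul_bdd hQ.aestronglyMeasurable (Filter.Eventually.of_forall hC)
  have hsum : ∀ α, G α = G1 α + G2 α := by
    intro α
    rw [hG1, hG2]
    exact (Set.indicator_self_add_compl_apply _ _ _).symm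
  have hb1 : ∀ N : ℤ, ‖∫ α, G1 α * e (-(α * N)) ∂mu‖ ≤ 16 * W * η ^ 2 * A * B := by
    intro N
    have : ‖∫ α, G1 α * e (-(α * N)) ∂mu‖ ≤ ∫ α, (Set.Icc (-η) η).indicator (fun _ => K) α ∂mu := by
      refine norm_integral_le_of_norm_le ?_ ?_
      · exact (integrable_const K).indicator measurableSet_Icc
      · refine Filter.Eventually.of_forall fun α => ?_
        rw [norm_mul, norm_e, mul_one, hG1]
        by_cases hm : α ∈ Set.Icc (-η) η
        · rw [Set.indicator_of_mem hm, Set.indicator_of_mem hm]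
          have hs : |α| ≤ η := abs_le.mpr hm
          have hD := Dl_small hW α
          have h3 : ‖Dl W α‖ ≤ 2 * Real.pi * η * W := by
            refine hD.trans ?_
            gcongr
          rw [hG]
          dsimp only
          rw [norm_mul, norm_mul, hK]
          have hU := norm_U P v p hp α
          have hV := norm_U L a w hw α
          have hD0 := norm_nonneg (Dl W α)
          gcongr
        · rw [Set.indicator_of_notMem hm, Set.indicator_of_notMem hm, norm_zero]
    refine this.trans ((small_int hη hK0).trans ?_)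
    rw [hK]
    have : 2 * η * (A * B * (2 * Real.pi * η * W)) = Real.pi * (4 * W * η ^ 2 * A * B) := by ring
    rw [this]
    have h8 : Real.pi ≤ 4 := Real.pi_le_four
    have h9 : 0 ≤ 4 * W * η ^ 2 * A * B := by positivity
    nlinarith
  set c : ℤ → ℂ := fun N => ∫ α, G2 α * e (-(α * N)) ∂mu with hc
  have hlow : ∀ N ∈ S, ρ ≤ ‖c N‖ := by
    intro N hN
    have h1 := dev hcF (R1 P L v p a w) (r1 P L v p a w) hW N
    have h2 : ∫ α, U P v p α * U L a w α * Dl W α * e (-(α * N)) ∂mu =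
        (∫ α, G1 α * e (-(α * N)) ∂mu) + c N := by
      rw [hc]
      dsimp only
      rw [← integral_add]
      · refine integral_congr_ae (Filter.Eventually.of_forall fun α => ?_)
        dsimp only
        rw [← add_mul, ← hsum α]
      · exact hmul hiG1 (cont_eN N) (C := 1) (fun α => (norm_e _).le)
      · exact hmul hiG2 (cont_eN N) (C := 1) (fun α => (norm_e _).le)
    rw [h2] at h1
    have h3 : |R1 P L v p a w N - (∑ h ∈ range W, R1 P L v p a w (N + h)) / W| ≤
        ‖∫ α, G1 α * e (-(α * N)) ∂mu‖ + ‖c N‖ := by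
      rw [← Real.norm_eq_abs, ← Complex.norm_real, h1]
      exact norm_add_le _ _
    have h4 := hS N hN
    have h5 := hb1 N
    linarith
  -- the dual sum
  set Q : ℝ → ℂ := fun α => ∑ N ∈ S, c N * e (α * N) with hQ
  have hcQ : Continuous Q := cont_trig S c fun N => N
  have hQ2 : ∫ α, ‖Q α‖ ^ 2 ∂mu = ∑ N ∈ S, ‖c N‖ ^ 2 := by
    have h := l2 S c (fun N => N)
    have h2 : (∑ i ∈ S, ∑ j ∈ S, if i = j then c i * (starRingEnd ℂ) (c j) else 0) =
        ((∑ N ∈ S, ‖c N‖ ^ 2 : ℝ) : ℂ) := by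
      push_cast
      refine Finset.sum_congr rfl fun i hi => ?_
      rw [Finset.sum_ite_eq, if_pos hi, Complex.mul_conj']
    rw [h2] at h
    exact_mod_cast h
  have hdual : ∫ α, G2 α * (starRingEnd ℂ) (Q α) ∂mu = ((∑ N ∈ S, ‖c N‖ ^ 2 : ℝ) : ℂ) := by
    have h1 : ∀ α, G2 α * (starRingEnd ℂ) (Q α) = ∑ N ∈ S, (starRingEnd ℂ) (c N) * (G2 α * e (-(α * N))) := by
      intro α
      rw [hQ]
      dsimp only
      rw [map_sum, Finset.mul_sum]
      refine Finset.sum_congr rfl fun N _ => ?_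
      rw [map_mul, conj_e]
      ring
    simp only [h1]
    rw [integral_finsetSum]
    · simp only [integral_const_mul]
      push_cast
      refine Finset.sum_congr rfl fun N _ => ?_
      rw [← Complex.conj_mul']
    · intro N _
      exact (hmul hiG2 (cont_eN N) (C := 1) (fun α => (norm_e _).le)).const_mul _
  have hfin : ∑ N ∈ S, ‖c N‖ ^ 2 ≤ ∫ α, (2 * τ ^ 2 * ‖U P v p α‖ ^ 2 + ‖Q α‖ ^ 2 / 2) ∂mu := by
    have h1 : ‖∫ α, G2 α * (starRingEnd ℂ) (Q α) ∂mu‖ ≤
        ∫ α, (2 * τ ^ 2 * ‖U P v p α‖ ^ 2 + ‖Q α‖ ^ 2 / 2) ∂mu := by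
      refine norm_integral_le_of_norm_le ?_ ?_
      · exact integR (by have := cont_U P v p; fun_prop)
      · filter_upwards [mem_half] with α hα
        rw [norm_mul, RCLike.norm_conj]
        have hg : ‖G2 α‖ ≤ 2 * τ * ‖U P v p α‖ := by
          rw [hG2]
          by_cases hm : α ∈ Set.Icc (-η) η
          · rw [Set.indicator_of_notMem (by simpa using hm), norm_zero]
            positivity
          · rw [Set.indicator_of_mem (by simpa using hm), hG]
            dsimp only
            have hs : η < |α| := by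
              by_contra hcon
              exact hm (abs_le.mp (not_lt.mp hcon))
            have hD := Dl_two hW α
            have hT' : ‖U L a w α‖ ≤ τ := hT α hs.le hα
            rw [norm_mul, norm_mul]
            have hD0 := norm_nonneg (Dl W α)
            calc ‖U P v p α‖ * ‖U L a w α‖ * ‖Dl W α‖ ≤ ‖U P v p α‖ * τ * 2 := by gcongr
              _ = 2 * τ * ‖U P v p α‖ := by ring
        have hq0 := norm_nonneg (Q α)
        have := mul_le_mul_of_nonneg_right hg hq0
        nlinarith [sq_nonneg (2 * τ * ‖U P v p α‖ - ‖Q α‖)]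
    rw [hdual, Complex.norm_real, Real.norm_eq_abs, abs_of_nonneg (Finset.sum_nonneg fun _ _ => sq_nonneg _)] at h1
    exact h1
  rw [integral_add, integral_const_mul, U_sq, integral_div, hQ2] at hfin
  · have h1 : (S.card : ℝ) * ρ ^ 2 ≤ ∑ N ∈ S, ‖c N‖ ^ 2 := by
      rw [← nsmul_eq_mul, ← Finset.sum_const]
      refine Finset.sum_le_sum fun N hN => ?_
      have := hlow N hN
      gcongr
    linarith
  · exact integR (continuous_const.mul ((cont_U P v p).norm.pow 2))
  · exact integR ((hcQ.norm.pow 2).div_const _)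

end Pool.Agent.N624.MWCirc


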