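import Mathlib
import Pool.Agent.N604.MW.Stm12

/-!
# Project AK (helper604), task KBC (helper624): Borel-Cantelli

Adapted from `Pool.Agent.N75.AD_ABC` (helper75).
-/

set_option autoImplicit false

namespace Pool.Agent.N624.AK

open Finset MeasureTheory Pool.Agent.N604.MW Filter

lemma e_cont : Continuous e := by
  unfold e
  fun_prop

lemma e_nrm (x : ℝ) : ‖e x‖ = 1 := by
  unfold e
  rw [show 2 * (Real.pi : ℂ) * (x : ℂ) * Complex.I = ((2 * Real.pi * x : ℝ) : ℂ) * Complex.I by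
    push_cast; ring]
  exact Complex.norm_exp_ofReal_mul_I _

lemma e_ad (x y : ℝ) : e (x + y) = e x * e y := by
  unfold e
  rw [← Complex.exp_add]
  congr 1
  push_cast
  ring

lemma e_pw (n : ℕ) (x : ℝ) : e x ^ n = e ((n : ℝ) * x) := by
  unfold e
  rw [← Complex.exp_nat_mul]
  congr 1
  push_cast
  ring

lemma bc {Ω : Type*} [MeasurableSpace Ω] (μ : Measure Ω) (E : ℕ → Set Ω) (f : ℕ → ℝ)
    (hf : Summable f) (ν1 : ℕ) (h : ∀ ν, ν1 ≤ ν → μ (E ν) ≤ ENNReal.ofReal (f ν)) :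
    ∀ᵐ ω ∂μ, ∃ ν0 : ℕ, ∀ ν, ν0 ≤ ν → ω ∉ E ν := by
  have h1 : ∀ᵐ ω ∂μ, ∀ᶠ ν in atTop, ω ∉ (if ν1 ≤ ν then E ν else ∅) := by
    apply ae_eventually_notMem
    refine ne_top_of_le_ne_top hf.tsum_ofReal_ne_top (ENNReal.tsum_le_tsum fun ν => ?_)
    split_ifs with hν
    · exact h ν hν
    · simp
  filter_upwards [h1] with ω hω
  obtain ⟨ν0, h0⟩ := eventually_atTop.1 hω
  refine ⟨max ν0 ν1, fun ν hν => ?_⟩
  have := h0 ν ((le_max_left _ _).trans hν)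
  rwa [if_pos ((le_max_right _ _).trans hν)] at this

lemma summ2 (C : ℝ) (a : ℕ) {c : ℝ} (hc : 0 < c) :
    Summable fun ν : ℕ => C * ((ν : ℝ) + 1) ^ a * (2 : ℝ) ^ ((ν : ℝ) * (-c)) := by
  set q : ℝ := (2 : ℝ) ^ (-c) with hq
  have hq0 : 0 < q := Real.rpow_pos_of_pos (by norm_num) _
  have hq1 : q < 1 := Real.rpow_lt_one_of_one_lt_of_neg (by norm_num) (by linarith)
  have h1 : Summable fun ν : ℕ => (ν : ℝ) ^ a * q ^ ν :=
    summable_pow_mul_geometric_of_norm_lt_one a (by rwa [Real.norm_of_nonneg hq0.le])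
  have h2 := ((summable_nat_add_iff 1).2 h1).mul_left (C * q⁻¹)
  refine h2.congr fun ν => ?_
  have e2 : (2 : ℝ) ^ ((ν : ℝ) * (-c)) = q ^ ν := by
    rw [hq, ← Real.rpow_natCast, ← Real.rpow_mul (by norm_num)]
    congr 1
    ring
  rw [e2]
  push_cast
  rw [pow_succ]
  field_simp

lemma SG1_cont (s d : ℕ) (c : Fin s → ℝ) (A : Finset ℤ) (i : Fin s) :
    Continuous fun p : (Fin s → Fin d → ℝ) × ℝ => SG A (pk d (c i) (p.1 i)) p.2 := by
  unfold SG pk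
  refine continuous_finsetSum _ fun x _ => e_cont.comp ?_
  refine continuous_snd.mul (continuous_const.add (continuous_finsetSum _ fun l _ => ?_))
  have h : Continuous fun p : (Fin s → Fin d → ℝ) × ℝ => p.1 i l := by fun_prop
  exact h.mul continuous_const

lemma SG_cont (s d : ℕ) (c : Fin s → ℝ) (A : Fin s → Finset ℤ) :
    Continuous fun p : (Fin s → Fin d → ℝ) × ℝ => ∏ i, ‖SG (A i) (pk d (c i) (p.1 i)) p.2‖ :=
  continuous_finsetProd _ fun i _ => (SG1_cont s d c (A i) i).norm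

lemma SG_cont1 (s d : ℕ) (c : Fin s → ℝ) (A : Fin s → Finset ℤ) (θ : Fin s → Fin d → ℝ) :
    Continuous fun t : ℝ => ∏ i, ‖SG (A i) (pk d (c i) (θ i)) t‖ := by
  unfold SG
  refine continuous_finsetProd _ fun i _ => Continuous.norm ?_
  exact continuous_finsetSum _ fun x _ => e_cont.comp (continuous_id.mul continuous_const)

lemma intProd_measurable (s d : ℕ) (c : Fin s → ℝ) (A : Fin s → Finset ℤ) (η η' : ℝ) :
    Measurable fun θ : Fin s → Fin d → ℝ =>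
      ∫ t in Arc η η', ∏ i, ‖SG (A i) (pk d (c i) (θ i)) t‖ := by
  have h : StronglyMeasurable fun p : (Fin s → Fin d → ℝ) × ℝ =>
      ∏ i, ‖SG (A i) (pk d (c i) (p.1 i)) p.2‖ := (SG_cont s d c A).measurable.stronglyMeasurable
  exact (h.integral_prod_right (ν := volume.restrict (Arc η η'))).measurable

lemma EG_measurable (s d : ℕ) (c : Fin s → ℝ) (A : Fin s → Finset ℤ) (η : ℝ) (n : ℤ) :
    Measurable fun θ : Fin s → Fin d → ℝ => EG A (fun i => pk d (c i) (θ i)) η n := by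
  unfold EG
  have h : StronglyMeasurable fun p : (Fin s → Fin d → ℝ) × ℝ =>
      (Pool.Agent.N604.MW.sq p.2 : ℂ) * (∏ i, SG (A i) (pk d (c i) (p.1 i)) p.2) *
        e (-(p.2 * n)) := by
    refine Measurable.stronglyMeasurable (Continuous.measurable ?_)
    refine (Continuous.mul (Continuous.mul ?_ ?_) ?_)
    · refine Complex.continuous_ofReal.comp ?_
      unfold Pool.Agent.N604.MW.sq
      exact (Real.continuous_sinc.comp (by fun_prop)).pow 2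
    · exact continuous_finsetProd _ fun i _ => SG1_cont s d c (A i) i
    · refine e_cont.comp ?_
      fun_prop
  exact (h.integral_prod_right (ν := volume.restrict {t : ℝ | η ≤ |t|})).measurable

/-- the integral over the small frequencies -/
noncomputable def I1 (s d : ℕ) (c : Fin s → ℝ) (δ : ℝ) (ν : ℕ) (θ : Fin s → Fin d → ℝ) : ℝ :=
  ∫ t in Arc ((2 : ℝ) ^ ((ν : ℝ) * (-((d + 1 : ℕ) : ℝ) + δ)))
      ((2 : ℝ) ^ (-(((d + 1 : ℕ) : ℝ) * ν / 2))),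
      ∏ i, ‖SG (BX ν) (pk d (c i) (θ i)) t‖

/-- the box -/
def Box (s d : ℕ) (B : ℝ) : Set (Fin s → Fin d → ℝ) := {θ | ∀ i l, |θ i l| ≤ B}

lemma box_meas (s d : ℕ) (B : ℝ) : MeasurableSet (Box s d B) := by
  unfold Box
  rw [Set.ofPred_forall]
  refine MeasurableSet.iInter fun i => ?_
  rw [Set.ofPred_forall]
  refine MeasurableSet.iInter fun l => ?_
  exact (isClosed_le (by fun_prop) continuous_const).measurableSet

lemma part1 (h5 : S_KL1) {d s : ℕ} (c : Fin s → ℝ) {δ δ' : ℝ} (hd : 64 ≤ d) (hs : d + 1 < s)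
    (hc : ∀ i, 0 < c i) (hδ0 : 0 < δ) (hδ1 : δ < ((d : ℝ) + 1) / 2)
    (hδ' : δ' < δ * (((s : ℝ) - (d + 1)) / (d + 1))) (B : ℝ) (hB : 0 < B) :
    ∀ᵐ θ ∂(GMs s d), ∃ ν0 : ℕ, ∀ ν : ℕ, ν0 ≤ ν →
      θ ∉ {θ | (2 : ℝ) ^ ((ν : ℝ) * ((s : ℝ) - (d + 1 : ℕ) - δ')) < I1 s d c δ ν θ} ∩
        Box s d B := by
  obtain ⟨C, hC, hX⟩ := h5 d s c B δ hd hs hc hB hδ0 hδ1
  refine bc (GMs s d) (fun ν : ℕ =>
    {θ | (2 : ℝ) ^ ((ν : ℝ) * ((s : ℝ) - (d + 1 : ℕ) - δ')) < I1 s d c δ ν θ} ∩ Box s d B) _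
    (summ2 C (2 * s) (sub_pos.2 hδ')) 0 fun ν _ => ?_
  have hb := hX ν
  set T : ℝ := (2 : ℝ) ^ ((ν : ℝ) * ((s : ℝ) - (d + 1 : ℕ) - δ')) with hT
  have hTpos : 0 < T := Real.rpow_pos_of_pos (by norm_num) _
  have hImeas : Measurable (I1 s d c δ ν) := intProd_measurable s d c (fun _ => BX ν) _ _
  have hsub : {θ | T < I1 s d c δ ν θ} ⊆
      {θ | ENNReal.ofReal T ≤ ENNReal.ofReal (I1 s d c δ ν θ)} := by
    intro θ hθ
    exact ENNReal.ofReal_le_ofReal (le_of_lt hθ)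
  have hmark := meas_ge_le_lintegral_div (μ := (GMs s d).restrict (Box s d B))
    (hImeas.ennreal_ofReal.aemeasurable)
    (ε := ENNReal.ofReal T) (by simpa using hTpos) ENNReal.ofReal_ne_top
  have hle : ∫⁻ θ in Box s d B, ENNReal.ofReal (I1 s d c δ ν θ) ∂(GMs s d) ≤
      ∫⁻ θ in Box s d B, (∫⁻ t in Arc ((2 : ℝ) ^ ((ν : ℝ) * (-((d + 1 : ℕ) : ℝ) + δ)))
        ((2 : ℝ) ^ (-(((d + 1 : ℕ) : ℝ) * ν / 2))),
      ENNReal.ofReal (∏ i, ‖SG (BX ν) (pk d (c i) (θ i)) t‖)) ∂(GMs s d) := by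
    refine lintegral_mono fun θ => ?_
    unfold I1
    rw [integral_eq_lintegral_of_nonneg_ae]
    · exact ENNReal.ofReal_toReal_le
    · exact Filter.Eventually.of_forall fun β => Finset.prod_nonneg fun i _ => norm_nonneg _
    · exact (SG_cont1 s d c (fun _ => BX ν) θ).aestronglyMeasurable
  have hres : (GMs s d) ({θ | T < I1 s d c δ ν θ} ∩ Box s d B) =
      ((GMs s d).restrict (Box s d B)) {θ | T < I1 s d c δ ν θ} :=
    (Measure.restrict_apply' (box_meas s d B)).symm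
  rw [hres]
  refine (measure_mono hsub).trans (hmark.trans ?_)
  refine (ENNReal.div_le_div_right (hle.trans hb) _).trans ?_
  rw [← ENNReal.ofReal_div_of_pos hTpos]
  refine ENNReal.ofReal_le_ofReal (le_of_eq ?_)
  rw [div_eq_iff hTpos.ne', mul_assoc (C * ((ν : ℝ) + 1) ^ (2 * s)), hT,
    ← Real.rpow_add (by norm_num)]
  congr 2
  push_cast
  ring

/-- the second exceptional set -/
def E2 (s d : ℕ) (c : Fin s → ℝ) (δ' : ℝ) (ν : ℕ) : Set (Fin s → Fin d → ℝ) :=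
  {θ | ∃ n : ℤ, |(n : ℝ)| ≤ 2 * (2 : ℝ) ^ ((ν : ℝ) * (((d + 1 : ℕ) : ℝ) + 1 / 4)) ∧
    ∃ (a : Fin s → ℕ) (σ : Fin s → Bool), (∀ i, a i ≤ ν) ∧
      (2 : ℝ) ^ ((ν : ℝ) * ((s : ℝ) - (d + 1 : ℕ) - 2 * δ')) <
      ‖EG (fun i => ZB (a i) (σ i)) (fun i => pk d (c i) (θ i))
        ((2 : ℝ) ^ (-(((d + 1 : ℕ) : ℝ) * ν / 2))) n‖}

lemma part2 (h1 : S_KMOM) (h2 : S_KHOL) (h3 : S_KBLK) {m d s : ℕ} (c : Fin s → ℝ) {δ' : ℝ}
    (hm : 1 ≤ m) (hd : 2 ≤ d) (h2m : 2 * m ≤ d) (h6m : 6 * m ≤ s) (hds : d + 1 < s)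
    (hH : 2 * m * (d + 1) * (s - d + 1) + (2 * d + 3 - 8 * m) * (d + 2) <
      (2 * d + 3 - 8 * m) * (2 * m * (s - (d + 1))))
    (h8m : 8 * m ≤ 2 * d + 2) (hδ' : 4 * m * δ' < 3 / 4) :
    ∀ᵐ θ ∂(GMs s d), ∃ ν0 : ℕ, ∀ ν, ν0 ≤ ν → θ ∉ E2 s d c δ' ν := by
  obtain ⟨ν0, hν0⟩ := h3 m d s hm hd h2m h6m hds hH h8m
  refine bc (GMs s d) _ _ (summ2 (15 * 2 ^ s) s (sub_pos.2 hδ')) ν0 fun ν hν => ?_
  have hkey := hν0 ν hν
  set η : ℝ := (2 : ℝ) ^ (-(((d + 1 : ℕ) : ℝ) * ν / 2)) with hη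
  have hη0 : 0 < η := Real.rpow_pos_of_pos (by norm_num) _
  set T : ℝ := (2 : ℝ) ^ ((ν : ℝ) * ((s : ℝ) - (d + 1 : ℕ) - 2 * δ')) with hT
  have hTpos : 0 < T := Real.rpow_pos_of_pos (by norm_num) _
  -- one integer and one vector of blocks
  have hone : ∀ (n : ℤ) (a : Fin s → ℕ) (σ : Fin s → Bool), (∀ i, a i ≤ ν) →
      (GMs s d) {θ | T < ‖EG (fun i => ZB (a i) (σ i)) (fun i => pk d (c i) (θ i)) η n‖} ≤
      ENNReal.ofReal (3 * (2 : ℝ) ^ ((ν : ℝ) * (4 * m * δ' - (d + 1 : ℕ) - 1))) := by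
    intro n a σ ha
    have hTm : 0 < T ^ (2 * m) := pow_pos hTpos _
    have hsub : {θ : Fin s → Fin d → ℝ |
        T < ‖EG (fun i => ZB (a i) (σ i)) (fun i => pk d (c i) (θ i)) η n‖} ⊆
        {θ | ENNReal.ofReal (T ^ (2 * m)) ≤
          ENNReal.ofReal (‖EG (fun i => ZB (a i) (σ i)) (fun i => pk d (c i) (θ i)) η n‖ ^
            (2 * m))} := by
      intro θ hθ
      exact ENNReal.ofReal_le_ofReal (pow_le_pow_left₀ hTpos.le (le_of_lt hθ) _)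
    have hmeas : Measurable fun θ : Fin s → Fin d → ℝ =>
        ENNReal.ofReal (‖EG (fun i => ZB (a i) (σ i)) (fun i => pk d (c i) (θ i)) η n‖ ^
          (2 * m)) :=
      ((EG_measurable s d c (fun i => ZB (a i) (σ i)) η n).norm.pow_const _).ennreal_ofReal
    have hmark := meas_ge_le_lintegral_div (μ := GMs s d) hmeas.aemeasurable
      (ε := ENNReal.ofReal (T ^ (2 * m))) (by simpa using hTm) ENNReal.ofReal_ne_top
    refine (measure_mono hsub).trans (hmark.trans ?_)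
    have hS : MeasurableSet {γ : Fin (2 * m) → ℝ | ∀ j, η ≤ |γ j|} := by
      rw [Set.ofPred_forall]
      refine MeasurableSet.iInter fun j => ?_
      exact (isClosed_le continuous_const (by fun_prop)).measurableSet
    have hhol := h2 s (2 * m) d a {γ : Fin (2 * m) → ℝ | ∀ j, η ≤ |γ j|} _ (by omega) hS
      (fun i => hkey (a i) (ha i))
    have hb := (h1 s m (by omega) hm d c a σ η n hη0.le).trans hhol
    refine (ENNReal.div_le_div_right hb _).trans ?_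
    rw [← ENNReal.ofReal_div_of_pos hTm]
    refine ENNReal.ofReal_le_ofReal (le_of_eq ?_)
    rw [div_eq_iff hTm.ne']
    have e0 : (2 : ℝ) ^ ((ν : ℝ) * (2 * (m : ℝ) * ((s : ℝ) - (d + 1)) - (d + 1) - 1)) =
        (2 : ℝ) ^ ((ν : ℝ) * (4 * m * δ' - (d + 1 : ℕ) - 1)) * T ^ (2 * m) := by
      rw [hT, ← Real.rpow_natCast ((2 : ℝ) ^ ((ν : ℝ) * ((s : ℝ) - (d + 1 : ℕ) - 2 * δ'))),
        ← Real.rpow_mul (by norm_num), ← Real.rpow_add (by norm_num)]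
      congr 1
      push_cast
      ring
    rw [e0]
    ring
  -- the union
  set Y : ℝ := (2 : ℝ) ^ ((ν : ℝ) * (((d + 1 : ℕ) : ℝ) + 1 / 4)) with hY
  have hY1 : 1 ≤ Y := Real.one_le_rpow (by norm_num) (by positivity)
  set M : ℤ := ⌊2 * Y⌋ with hMd
  have hM0 : 0 ≤ M := Int.floor_nonneg.2 (by linarith)
  have hsub : E2 s d c δ' ν ⊆ ⋃ z ∈ (Finset.Icc (-M) M) ×ˢ
      ((Fintype.piFinset fun _ : Fin s => Finset.range (ν + 1)) ×ˢ
        (Finset.univ : Finset (Fin s → Bool))),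
      {θ | T < ‖EG (fun i => ZB (z.2.1 i) (z.2.2 i)) (fun i => pk d (c i) (θ i)) η z.1‖} := by
    rintro θ ⟨n, hn, a, σ, ha, hθ⟩
    have h1 : |n| ≤ M := by
      refine Int.le_floor.2 ?_
      push_cast
      exact hn
    simp only [Set.mem_iUnion]
    refine ⟨(n, a, σ), ?_, hθ⟩
    rw [Finset.mem_product]
    refine ⟨Finset.mem_Icc.2 (abs_le.1 h1), ?_⟩
    rw [Finset.mem_product]
    refine ⟨?_, Finset.mem_univ _⟩
    rw [Fintype.mem_piFinset]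
    intro i
    rw [Finset.mem_range]
    exact Nat.lt_succ_of_le (ha i)
  have hcard : (((Finset.Icc (-M) M) ×ˢ
      ((Fintype.piFinset fun _ : Fin s => Finset.range (ν + 1)) ×ˢ
        (Finset.univ : Finset (Fin s → Bool)))).card : ℝ) ≤
      5 * Y * (((ν : ℝ) + 1) ^ s * 2 ^ s) := by
    rw [Finset.card_product, Finset.card_product, Fintype.card_piFinset, Finset.prod_const,
      Finset.card_univ, Finset.card_univ,
      Fintype.card_fin, Finset.card_range, Int.card_Icc, Fintype.card_fun, Fintype.card_bool,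
      Fintype.card_fin]
    have h2 : (((M + 1 - -M).toNat : ℕ) : ℝ) = 2 * M + 1 := by
      have h3 : (((M + 1 - -M).toNat : ℕ) : ℤ) = M + 1 - -M := Int.toNat_of_nonneg (by omega)
      have h4 : (((M + 1 - -M).toNat : ℕ) : ℝ) = ((M + 1 - -M : ℤ) : ℝ) := by
        rw [← h3]
        rfl
      rw [h4]
      push_cast
      ring
    rw [Nat.cast_mul, h2]
    push_cast
    have h5 : (M : ℝ) ≤ 2 * Y := Int.floor_le _
    exact mul_le_mul_of_nonneg_right (by linarith) (by positivity)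
  refine (measure_mono hsub).trans ((measure_biUnion_finset_le _ _).trans ?_)
  refine (Finset.sum_le_card_nsmul _ _ _ fun z hz => hone z.1 z.2.1 z.2.2 ?_).trans ?_
  · intro i
    have h1 := Fintype.mem_piFinset.1
      (Finset.mem_product.1 (Finset.mem_product.1 hz).2).1 i
    rw [Finset.mem_range] at h1
    omega
  rw [nsmul_eq_mul, ← ENNReal.ofReal_natCast, ← ENNReal.ofReal_mul (Nat.cast_nonneg _)]
  refine ENNReal.ofReal_le_ofReal ?_
  have hR : 0 ≤ 3 * (2 : ℝ) ^ ((ν : ℝ) * (4 * m * δ' - (d + 1 : ℕ) - 1)) := by positivity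
  refine (mul_le_mul_of_nonneg_right hcard hR).trans (le_of_eq ?_)
  have e1 : Y * (2 : ℝ) ^ ((ν : ℝ) * (4 * m * δ' - (d + 1 : ℕ) - 1)) =
      (2 : ℝ) ^ ((ν : ℝ) * (-(3 / 4 - 4 * m * δ'))) := by
    rw [hY, ← Real.rpow_add (by norm_num)]
    congr 1
    ring
  rw [← e1]
  ring

lemma SG_add (A : Finset ℤ) (f : ℤ → ℝ) (b t : ℝ) :
    SG A (fun x => f x + b) t = e (t * b) * SG A f t := by
  unfold SG
  rw [Finset.mul_sum]
  refine Finset.sum_congr rfl fun x _ => ?_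
  rw [← e_ad]
  congr 1
  ring

lemma SG_add_norm (A : Finset ℤ) (f : ℤ → ℝ) (b t : ℝ) :
    ‖SG A (fun x => f x + b) t‖ = ‖SG A f t‖ := by
  rw [SG_add, norm_mul, e_nrm, one_mul]

lemma EG_add {s : ℕ} (A : Fin s → Finset ℤ) (f : Fin s → ℤ → ℝ) (η : ℝ) (n : ℤ) (b : ℕ) :
    EG A (fun i x => f i x + b) η n = EG A f η (n - s * b) := by
  unfold EG
  congr 1
  funext t
  have h1 : ∏ i, SG (A i) (fun x => f i x + (b : ℝ)) t =
      e (t * b) ^ s * ∏ i, SG (A i) (f i) t := by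
    simp only [SG_add]
    rw [Finset.prod_mul_distrib, Finset.prod_const, Finset.card_univ, Fintype.card_fin]
  have h2 : e (-(t * ((n - s * b : ℤ) : ℝ))) = e (t * b) ^ s * e (-(t * n)) := by
    rw [e_pw, ← e_ad]
    congr 1
    push_cast
    ring
  rw [h1, h2]
  ring

theorem kbc (_h0 : S_ATRI) (h1 : S_KMOM) (h2 : S_KHOL) (h3 : S_KBLK) (h4 : S_KEXP)
    (h5 : S_KL1) : S_KBC := by
  intro m d s c δ hm hd h2m h6m hds hH h8m hc hδ0 hδ1
  have hm1 : (1 : ℝ) ≤ m := by exact_mod_cast hm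
  have hd64 : (64 : ℝ) ≤ d := by exact_mod_cast hd
  have hks' : (d : ℝ) + 1 < s := by exact_mod_cast hds
  have hk0 : (0 : ℝ) < (d : ℝ) + 1 := by linarith
  set c0 : ℝ := δ * (((s : ℝ) - (d + 1)) / (d + 1)) with hc0d
  have hc0 : 0 < c0 := mul_pos hδ0 (div_pos (by linarith) hk0)
  set δ' : ℝ := min (c0 / 2) (1 / (8 * m)) with hδ'
  have hδ'0 : 0 < δ' := lt_min (by linarith) (by positivity)
  have hδ'c : δ' < c0 := (min_le_left _ _).trans_lt (by linarith)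
  have hδ'm : 4 * m * δ' < 3 / 4 := by
    have h6 : δ' ≤ 1 / (8 * m) := min_le_right _ _
    have h7 : 4 * (m : ℝ) * δ' ≤ 4 * m * (1 / (8 * m)) :=
      mul_le_mul_of_nonneg_left h6 (by positivity)
    have h8 : 4 * (m : ℝ) * (1 / (8 * m)) = 1 / 2 := by field_simp; norm_num
    linarith
  refine ⟨δ', hδ'0, ?_⟩
  have hp1 : ∀ᵐ θ ∂(GMs s d), ∀ B : ℕ, ∃ ν0 : ℕ, ∀ ν : ℕ, ν0 ≤ ν →
      θ ∉ {θ | (2 : ℝ) ^ ((ν : ℝ) * ((s : ℝ) - (d + 1 : ℕ) - δ')) < I1 s d c δ ν θ} ∩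
        Box s d ((B : ℝ) + 1) :=
    ae_all_iff.2 fun B => part1 h5 c hd hds hc hδ0 (by linarith) hδ'c ((B : ℝ) + 1)
      (by positivity)
  filter_upwards [hp1, part2 h1 h2 h3 c hm (by omega) h2m h6m hds hH h8m hδ'm] with θ hθ1 hθ2 b
  obtain ⟨B, hB⟩ : ∃ B : ℕ, θ ∈ Box s d ((B : ℝ) + 1) := by
    obtain ⟨B, hB⟩ := exists_nat_gt (∑ i, ∑ l, |θ i l|)
    refine ⟨B, fun i l => ?_⟩
    have h6 : |θ i l| ≤ ∑ l, |θ i l| :=
      Finset.single_le_sum (f := fun l => |θ i l|) (fun _ _ => abs_nonneg _) (Finset.mem_univ l)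
    have h7 : ∑ l, |θ i l| ≤ ∑ i, ∑ l, |θ i l| :=
      Finset.single_le_sum (f := fun i => ∑ l, |θ i l|)
        (fun _ _ => Finset.sum_nonneg fun _ _ => abs_nonneg _) (Finset.mem_univ i)
    linarith
  obtain ⟨ν1, hν1⟩ := hθ1 B
  obtain ⟨ν2, hν2⟩ := hθ2
  obtain ⟨ν3, hν3⟩ : ∃ ν3 : ℕ, ∀ ν : ℕ, ν3 ≤ ν →
      2 ^ s * ((ν : ℝ) + 1) ^ s * (2 : ℝ) ^ ((ν : ℝ) * (-δ')) ≤ 1 := by
    have h6 := (summ2 (2 ^ s) s hδ'0).tendsto_atTop_zero
    have h7 := h6.eventually (ge_mem_nhds (show (0 : ℝ) < 1 by norm_num))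
    exact eventually_atTop.1 h7
  refine ⟨max (max ν1 (s * b)) (max ν2 ν3), fun ν hν => ?_⟩
  have g1 : ν1 ≤ ν := ((le_max_left _ _).trans (le_max_left _ _)).trans hν
  have g4 : s * b ≤ ν := ((le_max_right _ _).trans (le_max_left _ _)).trans hν
  have g2 : ν2 ≤ ν := ((le_max_left _ _).trans (le_max_right _ _)).trans hν
  have g3 : ν3 ≤ ν := ((le_max_right _ _).trans (le_max_right _ _)).trans hν
  have a1 : I1 s d c δ ν θ ≤ (2 : ℝ) ^ ((ν : ℝ) * ((s : ℝ) - (d + 1 : ℕ) - δ')) := by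
    by_contra hcon
    exact hν1 ν g1 ⟨not_le.1 hcon, hB⟩
  have a2 := hν2 ν g2
  have a3 := hν3 ν g3
  refine ⟨?_, fun n hn => ?_⟩
  · unfold I1 at a1
    simp only [SG_add_norm]
    exact a1
  · rw [EG_add]
    have hbn : |((n - s * b : ℤ) : ℝ)| ≤
        2 * (2 : ℝ) ^ ((ν : ℝ) * (((d + 1 : ℕ) : ℝ) + 1 / 4)) := by
      have h6 : ((s * b : ℕ) : ℝ) ≤ (2 : ℝ) ^ ((ν : ℝ) * (((d + 1 : ℕ) : ℝ) + 1 / 4)) := by
        have h7 : ((s * b : ℕ) : ℝ) ≤ (ν : ℝ) := by exact_mod_cast g4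
        have h8 : (ν : ℝ) ≤ (2 : ℝ) ^ ν := by
          exact_mod_cast (Nat.lt_two_pow_self (n := ν)).le
        have h9 : (2 : ℝ) ^ ν ≤ (2 : ℝ) ^ ((ν : ℝ) * (((d + 1 : ℕ) : ℝ) + 1 / 4)) := by
          rw [← Real.rpow_natCast]
          refine Real.rpow_le_rpow_of_exponent_le (by norm_num) ?_
          push_cast
          have : (0 : ℝ) ≤ ν := Nat.cast_nonneg ν
          nlinarith
        linarith
      have h7 : ((n - s * b : ℤ) : ℝ) = (n : ℝ) - ((s * b : ℕ) : ℝ) := by push_cast; ring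
      rw [h7]
      refine (abs_sub _ _).trans ?_
      rw [abs_of_nonneg (Nat.cast_nonneg (s * b) : (0 : ℝ) ≤ ((s * b : ℕ) : ℝ))]
      linarith
    have h6 := h4 s ν (fun i => pk d (c i) (θ i)) ((2 : ℝ) ^ (-(((d + 1 : ℕ) : ℝ) * ν / 2)))
      ((2 : ℝ) ^ ((ν : ℝ) * ((s : ℝ) - (d + 1 : ℕ) - 2 * δ'))) (n - s * b)
      (Real.rpow_pos_of_pos (by norm_num) _).le (fun a σ ha => by
        by_contra hcon
        exact a2 ⟨n - s * b, hbn, a, σ, ha, not_le.1 hcon⟩)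
    refine h6.trans ?_
    have e1 : (2 : ℝ) ^ ((ν : ℝ) * ((s : ℝ) - (d + 1 : ℕ) - 2 * δ')) =
        (2 : ℝ) ^ ((ν : ℝ) * (-δ')) * (2 : ℝ) ^ ((ν : ℝ) * ((s : ℝ) - (d + 1 : ℕ) - δ')) := by
      rw [← Real.rpow_add (by norm_num)]
      congr 1
      ring
    rw [e1, ← mul_assoc, mul_pow]
    exact mul_le_of_le_one_left (Real.rpow_pos_of_pos (by norm_num) _).le a3

end Pool.Agent.N624.AK
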