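import Pool.Agent.N646.BX.Stm
import Pool.Agent.N646.AC.Fou

/-!
# Almost periods of the number of representations
-/

set_option autoImplicit false

namespace Pool.Agent.N624.BXPER

open Finset ComplexConjugate
open Pool.Agent.N646.AC Pool.Agent.N646.BX

section group

variable {G : Type} [AddCommGroup G] [Fintype G] [DecidableEq G]

theorem conv_eq (E F : G → ℂ) (g : G) :
    ∑ x, E x * F (x + g) = ∑ ψ : AddChar G ℂ, (fh F ψ * ∑ x, E x * ψ x) * ψ g := by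
  have e1 : ∀ x, E x * F (x + g) = ∑ ψ : AddChar G ℂ, E x * (fh F ψ * ψ (x + g)) := by
    intro x
    rw [inversion F (x + g), mul_sum]
  simp_rw [e1, mul_sum, sum_mul]
  rw [sum_comm]
  refine sum_congr rfl fun ψ _ => sum_congr rfl fun x _ => ?_
  rw [AddChar.map_add_eq_mul]
  ring

theorem sum_fh_le (F : G → ℂ) (hF : ∀ x, ‖F x‖ ≤ 1) : ∑ ψ : AddChar G ℂ, ‖fh F ψ‖ ^ 2 ≤ 1 := by
  have h := parseval F
  have hG : (0 : ℝ) < Fintype.card G := by
    have : 0 < Fintype.card G := Fintype.card_pos_iff.2 ⟨0⟩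
    exact_mod_cast this
  have h2 : ∑ x, ‖F x‖ ^ 2 ≤ (Fintype.card G : ℝ) := by
    calc ∑ x, ‖F x‖ ^ 2 ≤ ∑ _x : G, (1 : ℝ) := sum_le_sum fun x _ => by
          have := hF x
          have h0 := norm_nonneg (F x)
          nlinarith
      _ = Fintype.card G := by simp
  rw [← h] at h2
  by_contra hcon
  have := mul_lt_mul_of_pos_left (not_le.1 hcon) hG
  linarith

theorem diff_le (E F : G → ℂ) (hE : ∀ x, ‖E x‖ ≤ 1) (hF : ∀ x, ‖F x‖ ≤ 1) {s : ℝ} (hs : 0 < s)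
    (q : G) (hq : ∀ ψ : AddChar G ℂ, s ≤ ‖fh F ψ‖ → ‖ψ q - 1‖ ≤ s) :
    ∑ g : G, ‖∑ x, E x * F (x + (g + q)) - ∑ x, E x * F (x + g)‖ ^ 2 ≤
      4 * s ^ 2 * (Fintype.card G : ℝ) ^ 3 := by
  have e1 : ∀ g : G, ∑ x, E x * F (x + (g + q)) - ∑ x, E x * F (x + g) =
      ∑ ψ : AddChar G ℂ, (fh F ψ * (∑ x, E x * ψ x) * (ψ q - 1)) * ψ g := by
    intro g
    rw [conv_eq, conv_eq, ← sum_sub_distrib]
    refine sum_congr rfl fun ψ _ => ?_
    rw [AddChar.map_add_eq_mul]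
    ring
  simp_rw [e1]
  rw [parseval1]
  have hone : ∀ ψ : AddChar G ℂ, ‖fh F ψ‖ ≤ 1 := by
    intro ψ
    have h1 := single_le_sum (f := fun ψ : AddChar G ℂ => ‖fh F ψ‖ ^ 2)
      (fun i _ => by positivity) (mem_univ ψ)
    have h2 : ‖fh F ψ‖ ^ 2 ≤ 1 := h1.trans (sum_fh_le F hF)
    have h3 := norm_nonneg (fh F ψ)
    nlinarith
  have h1 : ∑ ψ : AddChar G ℂ, ‖fh F ψ * (∑ x, E x * ψ x) * (ψ q - 1)‖ ^ 2 ≤
      4 * s ^ 2 * ∑ ψ : AddChar G ℂ, ‖∑ x, E x * ψ x‖ ^ 2 := by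
    rw [mul_sum]
    refine sum_le_sum fun ψ _ => ?_
    rw [norm_mul, norm_mul]
    have hb : ‖fh F ψ‖ * ‖ψ q - 1‖ ≤ 2 * s := by
      rcases le_or_gt s ‖fh F ψ‖ with h | h
      · have h2 := hq ψ h
        calc ‖fh F ψ‖ * ‖ψ q - 1‖ ≤ 1 * s :=
              mul_le_mul (hone ψ) h2 (norm_nonneg _) zero_le_one
          _ ≤ 2 * s := by linarith
      · have h2 : ‖ψ q - 1‖ ≤ 2 := by
          refine (norm_sub_le _ _).trans ?_
          rw [AddChar.norm_apply]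
          norm_num
        calc ‖fh F ψ‖ * ‖ψ q - 1‖ ≤ s * 2 :=
              mul_le_mul h.le h2 (norm_nonneg _) hs.le
          _ = 2 * s := by ring
    have e : ‖fh F ψ‖ * ‖∑ x, E x * ψ x‖ * ‖ψ q - 1‖ =
        ‖fh F ψ‖ * ‖ψ q - 1‖ * ‖∑ x, E x * ψ x‖ := by ring
    rw [e, mul_pow]
    have h3 : (‖fh F ψ‖ * ‖ψ q - 1‖) ^ 2 ≤ (2 * s) ^ 2 := pow_le_pow_left₀ (by positivity) hb 2
    calc (‖fh F ψ‖ * ‖ψ q - 1‖) ^ 2 * ‖∑ x, E x * ψ x‖ ^ 2
        ≤ (2 * s) ^ 2 * ‖∑ x, E x * ψ x‖ ^ 2 := mul_le_mul_of_nonneg_right h3 (by positivity)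
      _ = 4 * s ^ 2 * ‖∑ x, E x * ψ x‖ ^ 2 := by ring
  rw [parseval2] at h1
  have h2 : ∑ x, ‖E x‖ ^ 2 ≤ (Fintype.card G : ℝ) := by
    calc ∑ x, ‖E x‖ ^ 2 ≤ ∑ _x : G, (1 : ℝ) := sum_le_sum fun x _ => by
          have := hE x
          have h0 := norm_nonneg (E x)
          nlinarith
      _ = Fintype.card G := by simp
  have hG : (0 : ℝ) ≤ Fintype.card G := Nat.cast_nonneg _
  calc (Fintype.card G : ℝ) * ∑ ψ : AddChar G ℂ, ‖fh F ψ * (∑ x, E x * ψ x) * (ψ q - 1)‖ ^ 2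
      ≤ Fintype.card G * (4 * s ^ 2 * (Fintype.card G * ∑ x, ‖E x‖ ^ 2)) :=
        mul_le_mul_of_nonneg_left h1 hG
    _ ≤ Fintype.card G * (4 * s ^ 2 * (Fintype.card G * Fintype.card G)) := by gcongr
    _ = _ := by ring

/-- the cell of a complex number -/
noncomputable def cell (k : ℕ) (z : ℂ) : ℤ × ℤ := (⌊z.re * k⌋, ⌊z.im * k⌋)

theorem cell_mem (k : ℕ) {z : ℂ} (hz : ‖z‖ = 1) :
    cell k z ∈ (Icc (-(k : ℤ)) k) ×ˢ (Icc (-(k : ℤ)) k) := by
  have h1 : |z.re| ≤ 1 := by rw [← hz]; exact Complex.abs_re_le_norm z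
  have h2 : |z.im| ≤ 1 := by rw [← hz]; exact Complex.abs_im_le_norm z
  have hk : (0 : ℝ) ≤ k := Nat.cast_nonneg k
  have key : ∀ a : ℝ, |a| ≤ 1 → ⌊a * k⌋ ∈ Icc (-(k : ℤ)) k := by
    intro a ha
    rw [abs_le] at ha
    rw [mem_Icc]
    constructor
    · rw [Int.le_floor]
      push_cast
      nlinarith
    · have : (⌊a * k⌋ : ℝ) ≤ k := (Int.floor_le _).trans (by nlinarith)
      exact_mod_cast this
  simp only [cell, mem_product]
  exact ⟨key _ h1, key _ h2⟩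

theorem cell_close {k : ℕ} (hk : 1 ≤ k) {z w : ℂ} (h : cell k z = cell k w) :
    ‖z - w‖ ≤ 2 / k := by
  have hk0 : (0 : ℝ) < k := by exact_mod_cast hk
  simp only [cell, Prod.mk.injEq] at h
  have key : ∀ a b : ℝ, ⌊a * k⌋ = ⌊b * k⌋ → |a - b| ≤ 1 / k := by
    intro a b hab
    have h1 := Int.abs_sub_lt_one_of_floor_eq_floor hab
    rw [← sub_mul, abs_mul, abs_of_pos hk0] at h1
    rw [le_div_iff₀ hk0]
    exact h1.le
  refine (Complex.norm_le_abs_re_add_abs_im _).trans ?_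
  rw [Complex.sub_re, Complex.sub_im]
  have h1 := key _ _ h.1
  have h2 := key _ _ h.2
  calc _ ≤ 1 / (k : ℝ) + 1 / k := add_le_add h1 h2
    _ = 2 / k := by ring

theorem dirichlet (Γ : Finset (AddChar G ℂ)) {k : ℕ} (hk : 1 ≤ k) (J : ℕ)
    (hJ : ((2 * k + 1) ^ 2) ^ Γ.card < J) (t : G) :
    ∃ j : ℕ, 1 ≤ j ∧ j ≤ J ∧ ∀ ψ ∈ Γ, ‖ψ (j • t) - 1‖ ≤ 2 / k := by
  classical
  set C : Finset (ℤ × ℤ) := (Icc (-(k : ℤ)) k) ×ˢ (Icc (-(k : ℤ)) k) with hC
  have hCc : C.card = (2 * k + 1) ^ 2 := by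
    rw [hC, card_product, Int.card_Icc]
    have : ((k : ℤ) + 1 - -(k : ℤ)).toNat = 2 * k + 1 := by omega
    rw [this]; ring
  have h := exists_ne_map_eq_of_card_lt_of_maps_to (s := range J)
    (t := Fintype.piFinset fun _ : Γ => C) (f := fun j : ℕ => fun ψ : Γ => cell k (ψ.1 (j • t)))
    (by
      rw [Fintype.card_piFinset, card_range, prod_const, hCc, card_univ, Fintype.card_coe]
      exact hJ)
    (by
      intro j _
      rw [mem_coe, Fintype.mem_piFinset]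
      intro ψ
      exact cell_mem k (AddChar.norm_apply _ _))
  obtain ⟨a, ha, b, hb, hab, hf⟩ := h
  wlog hlt : a < b generalizing a b
  · exact this b hb a ha hab.symm hf.symm (lt_of_le_of_ne (not_lt.1 hlt) hab.symm)
  rw [mem_range] at ha hb
  refine ⟨b - a, by omega, by omega, fun ψ hψ => ?_⟩
  have h1 := congrFun hf ⟨ψ, hψ⟩
  simp only at h1
  have h2 := cell_close hk h1
  have h3 : ψ (b • t) = ψ ((b - a) • t) * ψ (a • t) := by
    rw [← AddChar.map_add_eq_mul, ← add_smul]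
    congr 2
    omega
  rw [norm_sub_rev, h3] at h2
  have h4 : ψ ((b - a) • t) * ψ (a • t) - ψ (a • t) = (ψ ((b - a) • t) - 1) * ψ (a • t) := by ring
  rw [h4, norm_mul, AddChar.norm_apply, mul_one] at h2
  exact h2

end group

/-- the indicator function of a set of integers in `[0, L)` -/
noncomputable def ind (n : ℕ) (X : Finset ℤ) (g : ZMod n) : ℂ := if ((g.val : ℕ) : ℤ) ∈ X then 1 else 0

theorem ind_norm (n : ℕ) (X : Finset ℤ) (g : ZMod n) : ‖ind n X g‖ ≤ 1 := by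
  unfold ind
  split_ifs <;> simp

theorem conv_rep {L : ℕ} (hL : 1 ≤ L) [NeZero (4 * L)] {X Y : Finset ℤ} (hX : X ⊆ Ico 0 (L : ℤ))
    (hY : Y ⊆ Ico 0 (L : ℤ)) {h : ℤ} (h1 : -(2 * L : ℤ) ≤ h) (h2 : h < 2 * L) :
    ∑ x : ZMod (4 * L), ind (4 * L) Y x * ind (4 * L) X (x + ((h : ℤ) : ZMod (4 * L))) =
      (rep X Y h : ℂ) := by
  classical
  have e1 : ∀ x : ZMod (4 * L), ind (4 * L) Y x * ind (4 * L) X (x + ((h : ℤ) : ZMod (4 * L))) =
      if ((x.val : ℕ) : ℤ) ∈ Y.filter (fun y => y + h ∈ X) then 1 else 0 := by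
    intro x
    unfold ind
    simp only [mem_filter]
    by_cases hy : ((x.val : ℕ) : ℤ) ∈ Y
    · simp only [hy, if_true, one_mul, true_and]
      have hy' := mem_Ico.1 (hY hy)
      have hx : x + ((h : ℤ) : ZMod (4 * L)) = (((x.val : ℕ) + h : ℤ) : ZMod (4 * L)) := by
        push_cast
        rw [ZMod.natCast_zmod_val]
      have hv : (((x + ((h : ℤ) : ZMod (4 * L))).val : ℕ) : ℤ) = ((x.val : ℕ) + h : ℤ) % (4 * L : ℕ) := by
        rw [hx, ZMod.val_intCast]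
      rw [hv]
      have : (((x.val : ℕ) + h : ℤ) % (4 * L : ℕ) ∈ X) ↔ ((x.val : ℕ) + h : ℤ) ∈ X := by
        constructor
        · intro hh
          have hh' := mem_Ico.1 (hX hh)
          have h3 : ((x.val : ℕ) + h : ℤ) % (4 * L : ℕ) = ((x.val : ℕ) + h : ℤ) := by
            have h4 := Int.emod_add_mul_ediv ((x.val : ℕ) + h : ℤ) (4 * L : ℕ)
            have h5 : ((x.val : ℕ) + h : ℤ) / (4 * L : ℕ) = 0 := by
              push_cast at h4 hh' ⊢
              set k := ((x.val : ℕ) + h : ℤ) / (4 * L) with hk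
              by_contra hk0
              rcases lt_or_gt_of_ne hk0 with h6 | h6
              · have : k ≤ -1 := by omega
                nlinarith
              · have : 1 ≤ k := by omega
                nlinarith
            rw [h5, mul_zero, add_zero] at h4
            exact h4
          rwa [h3] at hh
        · intro hh
          have hh' := mem_Ico.1 (hX hh)
          rw [Int.emod_eq_of_lt hh'.1 (by push_cast; linarith)]
          exact hh
      simp only [this]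
    · simp only [hy, if_false, zero_mul, false_and]
  simp_rw [e1]
  rw [← Finset.sum_filter, sum_const, nsmul_eq_mul, mul_one]
  congr 1
  unfold rep
  refine card_bij (fun x _ => ((x.val : ℕ) : ℤ)) ?_ ?_ ?_
  · intro x hx
    exact (mem_filter.1 hx).2
  · intro a _ b _ hab
    exact ZMod.val_injective _ (by exact_mod_cast hab)
  · intro y hy
    have hy' := mem_Ico.1 (hY (mem_filter.1 hy).1)
    have hv : ((((y : ℤ) : ZMod (4 * L)).val : ℕ) : ℤ) = y := by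
      rw [ZMod.val_intCast]
      exact Int.emod_eq_of_lt hy'.1 (by push_cast; linarith)
    refine ⟨((y : ℤ) : ZMod (4 * L)), mem_filter.2 ⟨mem_univ _, ?_⟩, hv⟩
    rw [hv]
    exact hy

theorem main : S_PER := by
  intro κ ρ hκ hρ hρ1
  -- constants
  obtain ⟨s, hs0, hs⟩ : ∃ s : ℝ, 0 < s ∧ 256 * s ^ 2 ≤ κ ^ 3 := by
    refine ⟨√(κ ^ 3 / 256), by positivity, ?_⟩
    rw [Real.sq_sqrt (by positivity)]
    linarith
  obtain ⟨k, hk⟩ := exists_nat_ge (2 / s + 1)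
  have hk1 : 1 ≤ k := by
    have : (1 : ℝ) ≤ k := by
      have : 0 < 2 / s := by positivity
      linarith
    exact_mod_cast this
  have hk0 : (0 : ℝ) < k := by exact_mod_cast hk1
  have hks : 2 / (k : ℝ) ≤ s := by
    rw [div_le_iff₀ hk0]
    have : 2 / s * s = 2 := by field_simp
    nlinarith
  obtain ⟨D, hD⟩ := exists_nat_ge (1 / s ^ 2)
  set J : ℕ := ((2 * k + 1) ^ 2) ^ D + 1 with hJ
  have hJ0 : (0 : ℝ) < J := by positivity
  obtain ⟨n₁, hn₁⟩ := exists_nat_ge (J / ρ + 1)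
  refine ⟨ρ / (2 * J), by positivity, n₁, fun L hL X Y hX hY => ?_⟩
  have hLr : J / ρ + 1 ≤ (L : ℝ) := hn₁.trans (by exact_mod_cast hL)
  have hL1 : 1 ≤ L := by
    have : (1 : ℝ) ≤ L := by
      have : 0 < J / ρ := by positivity
      linarith
    exact_mod_cast this
  have hL0 : (0 : ℝ) < L := by exact_mod_cast hL1
  have hJL : (J : ℝ) ≤ ρ * L := by
    have h1 : J / ρ ≤ (L : ℝ) := by linarith
    rw [div_le_iff₀ hρ] at h1
    linarith
  have : NeZero (4 * L) := ⟨by omega⟩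
  set t : ℕ := ⌊ρ * L / J⌋₊ with ht
  have hx1 : 1 ≤ ρ * L / J := by rwa [le_div_iff₀ hJ0, one_mul]
  have ht1 : (t : ℝ) ≤ ρ * L / J := Nat.floor_le (by positivity)
  have ht2 : ρ * L / (2 * J) ≤ t := by
    have h1 := Nat.lt_floor_add_one (ρ * L / J)
    rw [← ht] at h1
    have h2 : 1 ≤ t := Nat.one_le_iff_ne_zero.2 (by
      rw [ht]
      exact (Nat.floor_pos.2 hx1).ne')
    have h3 : (1 : ℝ) ≤ t := by exact_mod_cast h2
    have h4 : ρ * L / (2 * J) = ρ * L / J / 2 := by field_simp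
    rw [h4]
    linarith
  have hcard : Fintype.card (ZMod (4 * L)) = 4 * L := ZMod.card _
  set F : ZMod (4 * L) → ℂ := ind (4 * L) X with hF
  set E : ZMod (4 * L) → ℂ := ind (4 * L) Y with hE
  have hFn : ∀ x, ‖F x‖ ≤ 1 := ind_norm _ _
  have hEn : ∀ x, ‖E x‖ ≤ 1 := ind_norm _ _
  classical
  set Γ : Finset (AddChar (ZMod (4 * L)) ℂ) := univ.filter (fun ψ => s ≤ ‖fh F ψ‖) with hΓ
  have hΓD : Γ.card ≤ D := by
    have h1 : s ^ 2 * Γ.card ≤ 1 := by
      calc s ^ 2 * Γ.card = ∑ ψ ∈ Γ, s ^ 2 := by rw [sum_const, nsmul_eq_mul]; ring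
        _ ≤ ∑ ψ ∈ Γ, ‖fh F ψ‖ ^ 2 := sum_le_sum fun ψ hψ =>
            pow_le_pow_left₀ hs0.le (mem_filter.1 hψ).2 2
        _ ≤ ∑ ψ : AddChar (ZMod (4 * L)) ℂ, ‖fh F ψ‖ ^ 2 :=
            sum_le_sum_of_subset_of_nonneg (subset_univ _) (fun _ _ _ => by positivity)
        _ ≤ 1 := sum_fh_le F hFn
    have h2 : (Γ.card : ℝ) ≤ 1 / s ^ 2 := by
      rw [le_div_iff₀ (by positivity)]
      linarith
    exact_mod_cast h2.trans hD
  have hJ2 : ((2 * k + 1) ^ 2) ^ Γ.card < J := by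
    rw [hJ]
    have : ((2 * k + 1) ^ 2) ^ Γ.card ≤ ((2 * k + 1) ^ 2) ^ D :=
      Nat.pow_le_pow_right (by positivity) hΓD
    omega
  obtain ⟨j, hj1, hj2, hj3⟩ := dirichlet Γ hk1 J hJ2 ((t : ℕ) : ZMod (4 * L))
  have hqt : ((j * t : ℕ) : ℝ) ≤ ρ * L := by
    push_cast
    calc (j : ℝ) * t ≤ J * (ρ * L / J) :=
          mul_le_mul (by exact_mod_cast hj2) ht1 (Nat.cast_nonneg _) hJ0.le
      _ = ρ * L := by field_simp
  refine ⟨j * t, ?_, hqt, ?_⟩
  · push_cast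
    calc ρ / (2 * J) * L = ρ * L / (2 * J) := by ring
      _ ≤ t := ht2
      _ = 1 * (t : ℝ) := by ring
      _ ≤ j * t := mul_le_mul_of_nonneg_right (by exact_mod_cast hj1) (Nat.cast_nonneg _)
  set q : ℕ := j * t with hq
  have hqL : q ≤ L := by
    have : (q : ℝ) ≤ L := hqt.trans (by nlinarith)
    exact_mod_cast this
  have hmain := diff_le E F hEn hFn hs0 ((q : ℕ) : ZMod (4 * L)) (fun ψ hψ => by
    have h1 := hj3 ψ (mem_filter.2 ⟨mem_univ _, hψ⟩)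
    rw [nsmul_eq_mul, ← Nat.cast_mul, ← hq] at h1
    exact h1.trans hks)
  rw [hcard] at hmain
  set B := (Ico (-(L : ℤ)) L).filter (fun h =>
      κ * L ≤ |(rep X Y (h + q) : ℝ) - rep X Y h|) with hB
  have hlow : (B.card : ℝ) * (κ * L) ^ 2 ≤
      ∑ g : ZMod (4 * L), ‖∑ x, E x * F (x + (g + ((q : ℕ) : ZMod (4 * L)))) -
        ∑ x, E x * F (x + g)‖ ^ 2 := by
    have hinj : Set.InjOn (fun h : ℤ => (h : ZMod (4 * L))) B := by
      intro a ha b hb hab
      have ha' := mem_Ico.1 (mem_filter.1 ha).1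
      have hb' := mem_Ico.1 (mem_filter.1 hb).1
      simp only at hab
      rw [ZMod.intCast_eq_intCast_iff_dvd_sub] at hab
      obtain ⟨c, hc⟩ := hab
      push_cast at hc
      have hc0 : c = 0 := by
        by_contra hne
        rcases lt_or_gt_of_ne hne with h6 | h6
        · have : c ≤ -1 := by omega
          nlinarith
        · have : 1 ≤ c := by omega
          nlinarith
      rw [hc0, mul_zero] at hc
      linarith
    calc (B.card : ℝ) * (κ * L) ^ 2 = ∑ h ∈ B, (κ * L) ^ 2 := by rw [sum_const, nsmul_eq_mul]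
      _ ≤ ∑ h ∈ B, ‖∑ x, E x * F (x + ((h : ZMod (4 * L)) + ((q : ℕ) : ZMod (4 * L)))) -
            ∑ x, E x * F (x + (h : ZMod (4 * L)))‖ ^ 2 := by
          refine sum_le_sum fun h hh => ?_
          have hh' := mem_Ico.1 (mem_filter.1 hh).1
          have h1 := (mem_filter.1 hh).2
          have e1 := conv_rep hL1 hX hY (h := h) (by linarith) (by linarith)
          have hqL' : (q : ℤ) ≤ L := by exact_mod_cast hqL
          have e2 := conv_rep hL1 hX hY (h := h + q) (by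
            have : (0 : ℤ) ≤ q := Int.natCast_nonneg q
            linarith) (by linarith)
          push_cast at e2
          rw [hE, hF, e1, e2, ← Complex.ofReal_natCast, ← Complex.ofReal_natCast,
            ← Complex.ofReal_sub, Complex.norm_real]
          exact pow_le_pow_left₀ (by positivity) h1 2
      _ = ∑ g ∈ B.image (fun h : ℤ => (h : ZMod (4 * L))),
            ‖∑ x, E x * F (x + (g + ((q : ℕ) : ZMod (4 * L)))) - ∑ x, E x * F (x + g)‖ ^ 2 := by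
          rw [sum_image hinj]
      _ ≤ _ := sum_le_sum_of_subset_of_nonneg (subset_univ _) (fun _ _ _ => by positivity)
  have hfin := hlow.trans hmain
  push_cast at hfin
  have h1 : (B.card : ℝ) * κ ^ 2 * (L : ℝ) ^ 2 ≤ κ ^ 3 * L * (L : ℝ) ^ 2 := by
    calc (B.card : ℝ) * κ ^ 2 * (L : ℝ) ^ 2 = B.card * (κ * L) ^ 2 := by ring
      _ ≤ 4 * s ^ 2 * (4 * (L : ℝ)) ^ 3 := hfin
      _ = 256 * s ^ 2 * (L : ℝ) ^ 3 := by ring
      _ ≤ κ ^ 3 * (L : ℝ) ^ 3 := mul_le_mul_of_nonneg_right hs (by positivity)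
      _ = κ ^ 3 * L * (L : ℝ) ^ 2 := by ring
  have h2 := le_of_mul_le_mul_right h1 (by positivity)
  have h3 : (B.card : ℝ) * κ ^ 2 ≤ (κ * L) * κ ^ 2 := h2.trans (le_of_eq (by ring))
  exact le_of_mul_le_mul_right h3 (by positivity)

end Pool.Agent.N624.BXPER
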